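import Pool.Agent.Helper2.AAE.Gallagher

/-!
# The number of points of a conic in an interval, from the larger sieve
-/

set_option autoImplicit false

namespace Pool.Agent.Helper2.AAE

open Finset Filter

theorem log_le_two_sqrt {x : ℝ} (hx : 0 < x) : Real.log x ≤ 2 * √x := by
  have h1 : Real.log (√x) ≤ √x - 1 := Real.log_le_sub_one_of_pos (Real.sqrt_pos.2 hx)
  rw [Real.log_sqrt hx.le] at h1
  linarith

/-- the loss from `(p + 4) / 2` instead of `p / 2` -/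
theorem loss : ∃ K : ℝ, 0 ≤ K ∧ ∀ P : Finset ℕ, (∀ p ∈ P, p.Prime) →
    2 * ∑ p ∈ P, Real.log p / p - K ≤ ∑ p ∈ P, Real.log p / (((p : ℝ) + 4) / 2) := by
  have hs : Summable (fun n : ℕ => 1 / (n : ℝ) ^ (3 / 2 : ℝ)) := Real.summable_one_div_nat_rpow.2 (by norm_num)
  refine ⟨16 * ∑' n : ℕ, 1 / (n : ℝ) ^ (3 / 2 : ℝ), mul_nonneg (by norm_num) (tsum_nonneg fun n => by positivity), fun P hP => ?_⟩
  have h1 : ∀ p ∈ P, 2 * (Real.log p / p) - 16 * (1 / (p : ℝ) ^ (3 / 2 : ℝ)) ≤ Real.log p / (((p : ℝ) + 4) / 2) := by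
    intro p hp
    have hp0 : (0 : ℝ) < p := by exact_mod_cast (hP p hp).pos
    have hl : 0 ≤ Real.log p := Real.log_natCast_nonneg p
    have h2 : Real.log p ≤ 2 * √(p : ℝ) := log_le_two_sqrt hp0
    have h3 : 2 / (p : ℝ) - 8 / (p : ℝ) ^ 2 ≤ 2 / ((p : ℝ) + 4) := by
      rw [div_sub_div _ _ hp0.ne' (by positivity), div_le_div_iff₀ (by positivity) (by positivity)]
      nlinarith [pow_pos hp0 2, pow_pos hp0 3]
    have h4 : Real.log p / (((p : ℝ) + 4) / 2) = Real.log p * (2 / ((p : ℝ) + 4)) := by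
      field_simp
    have h5 : 2 * (Real.log p / p) = Real.log p * (2 / (p : ℝ)) := by ring
    have h6 : Real.log p * (8 / (p : ℝ) ^ 2) ≤ 16 * (1 / (p : ℝ) ^ (3 / 2 : ℝ)) := by
      have e : (p : ℝ) ^ (3 / 2 : ℝ) * √(p : ℝ) = (p : ℝ) ^ 2 := by
        rw [Real.sqrt_eq_rpow, ← Real.rpow_add hp0]
        norm_num
      have h7 : 0 < (p : ℝ) ^ (3 / 2 : ℝ) := Real.rpow_pos_of_pos hp0 _
      have h8 : 0 < √(p : ℝ) := Real.sqrt_pos.2 hp0
      rw [← e]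
      calc Real.log p * (8 / ((p : ℝ) ^ (3 / 2 : ℝ) * √(p : ℝ))) ≤ (2 * √(p : ℝ)) * (8 / ((p : ℝ) ^ (3 / 2 : ℝ) * √(p : ℝ))) :=
            mul_le_mul_of_nonneg_right h2 (by positivity)
        _ = 16 * (1 / (p : ℝ) ^ (3 / 2 : ℝ)) := by
          field_simp
          norm_num
    rw [h4, h5]
    have h9 := mul_le_mul_of_nonneg_left h3 hl
    rw [mul_sub] at h9
    linarith
  have h2 := sum_le_sum h1
  rw [sum_sub_distrib, ← mul_sum, ← mul_sum] at h2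
  have h3 : ∑ p ∈ P, 1 / (p : ℝ) ^ (3 / 2 : ℝ) ≤ ∑' n : ℕ, 1 / (n : ℝ) ^ (3 / 2 : ℝ) :=
    hs.sum_le_tsum P fun n _ => by positivity
  linarith

/-- **Points of a conic in an interval.** -/
theorem conic_count_of
    (con : ∀ p : ℕ, p.Prime → p ≠ 2 → ∀ s D : ZMod p, s ≠ 0 → D ≠ 0 → ∀ A : Finset (ZMod p),
      (∀ x ∈ A, ∃ y, x ^ 2 - D = s * y ^ 2) → 2 * A.card ≤ p + 4)
    (mert : ∃ C : ℝ, ∀ Q : ℕ, 1 ≤ Q → Real.log Q - C ≤ ∑ p ∈ (Finset.Icc 1 Q).filter Nat.Prime, Real.log p / p)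
    (dvd : ∃ C : ℝ, ∀ (B : ℝ), 2 ≤ B → ∀ (N : ℤ), N ≠ 0 → ∀ P : Finset ℕ, (∀ p ∈ P, p.Prime ∧ (p : ℤ) ∣ N) →
      ∑ p ∈ P, Real.log p / p ≤ Real.log |(N : ℝ)| / B + C * Real.log B ^ 2)
    (C : ℝ) : ∃ G : ℕ, ∀ g ≥ G, ∀ M : ℕ, (101 / 100 : ℝ) ^ g ≤ M →
      ∀ a D s : ℤ, D ≠ 0 → s ≠ 0 → Real.log |((2 * s * D : ℤ) : ℝ)| ≤ C * (g : ℝ) ^ 2 →
      ∀ A : Finset ℤ, A ⊆ Finset.Ico a (a + M) → (∀ x ∈ A, ∃ y : ℤ, x ^ 2 - D = s * y ^ 2) →
      (A.card : ℝ) ≤ 2 * (M : ℝ) ^ (9 / 10 : ℝ) := by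
  obtain ⟨C1, h1⟩ := mert
  obtain ⟨C2, h2⟩ := dvd
  obtain ⟨K, hK0, hK⟩ := loss
  obtain ⟨ε, hε⟩ : ∃ ε, ε = Real.log (101 / 100) / 10 := ⟨_, rfl⟩
  have hε0 : 0 < ε := by
    rw [hε]
    exact div_pos (Real.log_pos (by norm_num)) (by norm_num)
  -- the threshold
  obtain ⟨E, hE⟩ : ∃ E, E = 2 * Real.log 2 + 2 * |C1| + K + 2 * |C| := ⟨_, rfl⟩
  have hE0 : 0 ≤ E := by
    rw [hE]
    have := Real.log_pos (by norm_num : (1 : ℝ) < 2)
    positivity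
  have hev : ∀ᶠ g : ℕ in atTop, E + 8 * |C2| * Real.log g ^ 2 ≤ ε * g := by
    have hlo := (Real.isLittleO_pow_log_id_atTop (n := 2)).comp_tendsto tendsto_natCast_atTop_atTop
    have hc : 0 < ε / (2 * (8 * |C2| + 1)) := by positivity
    have h3 := hlo.bound hc
    have h4 : ∀ᶠ g : ℕ in atTop, 2 * E / ε ≤ (g : ℝ) := tendsto_natCast_atTop_atTop.eventually_ge_atTop _
    filter_upwards [h3, h4] with g h3 h4
    simp only [Function.comp, id_eq, Real.norm_eq_abs, abs_of_nonneg (sq_nonneg (Real.log (g : ℝ))), abs_of_nonneg (Nat.cast_nonneg (α := ℝ) g)] at h3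
    rw [div_le_iff₀ hε0] at h4
    have h5 : 8 * |C2| * Real.log g ^ 2 ≤ (8 * |C2| + 1) * (ε / (2 * (8 * |C2| + 1)) * g) := by
      have h6 : 0 ≤ Real.log (g : ℝ) ^ 2 := sq_nonneg _
      have h7 := abs_nonneg C2
      calc 8 * |C2| * Real.log g ^ 2 ≤ (8 * |C2| + 1) * Real.log g ^ 2 := by nlinarith
        _ ≤ _ := mul_le_mul_of_nonneg_left h3 (by positivity)
    have h6 : (8 * |C2| + 1) * (ε / (2 * (8 * |C2| + 1)) * g) = ε * g / 2 := by
      have h7 : (8 * |C2| + 1) ≠ 0 := by positivity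
      field_simp
    rw [h6] at h5
    linarith
  obtain ⟨G, hG⟩ := eventually_atTop.1 hev
  refine ⟨max G 2, fun g hg M hM a D s hD hs hlog A hA hAc => ?_⟩
  have hgG : G ≤ g := (le_max_left _ _).trans hg
  have hg2 : 2 ≤ g := (le_max_right _ _).trans hg
  have hg2' : (2 : ℝ) ≤ g := by exact_mod_cast hg2
  have hthr := hG g hgG
  rcases A.eq_empty_or_nonempty with hAe | hAn
  · rw [hAe]
    simp only [card_empty, Nat.cast_zero]
    positivity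
  -- sizes
  have hM1 : (1 : ℝ) ≤ M := le_trans (one_le_pow₀ (by norm_num)) hM
  have hM0 : (0 : ℝ) < M := by linarith
  obtain ⟨L, hL⟩ : ∃ L, L = Real.log M := ⟨_, rfl⟩
  have hLg : 10 * ε * g ≤ L := by
    have h3 : Real.log ((101 / 100 : ℝ) ^ g) ≤ Real.log M := Real.log_le_log (by positivity) hM
    rw [Real.log_pow] at h3
    rw [hL, hε]
    linarith
  have hL0 : 0 < L := lt_of_lt_of_le (by positivity) hLg
  obtain ⟨X, hX⟩ : ∃ X : ℝ, X = (M : ℝ) ^ (9 / 10 : ℝ) := ⟨_, rfl⟩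
  have hX1 : 1 ≤ X := by
    rw [hX]
    exact Real.one_le_rpow hM1 (by norm_num)
  obtain ⟨Q, hQ⟩ : ∃ Q, Q = ⌊X⌋₊ := ⟨_, rfl⟩
  have hQ1 : 1 ≤ Q := by
    rw [hQ]
    exact Nat.one_le_floor_iff X |>.2 hX1
  have hQ1' : (1 : ℝ) ≤ Q := by exact_mod_cast hQ1
  have hQX : (Q : ℝ) ≤ X := by
    rw [hQ]
    exact Nat.floor_le (by linarith)
  have hQX2 : X / 2 ≤ Q := by
    have h3 := Nat.lt_floor_add_one X
    rw [← hQ] at h3
    linarith
  have hlogX : Real.log X = 9 / 10 * L := by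
    rw [hX, Real.log_rpow hM0, hL]
  have hlogQ : 9 / 10 * L - Real.log 2 ≤ Real.log Q := by
    have h3 : Real.log (X / 2) ≤ Real.log Q := Real.log_le_log (by linarith) hQX2
    rw [Real.log_div (by linarith) (by norm_num), hlogX] at h3
    exact h3
  have hlogQ' : Real.log Q ≤ 9 / 10 * L := by
    rw [← hlogX]
    exact Real.log_le_log (by linarith) hQX
  -- the primes
  obtain ⟨N, hN⟩ : ∃ N : ℤ, N = 2 * s * D := ⟨_, rfl⟩
  have hN0 : N ≠ 0 := by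
    rw [hN]
    exact mul_ne_zero (mul_ne_zero two_ne_zero hs) hD
  obtain ⟨P0, hP0⟩ : ∃ P0, P0 = (Finset.Icc 1 Q).filter Nat.Prime := ⟨_, rfl⟩
  obtain ⟨P, hP⟩ : ∃ P, P = P0.filter (fun p : ℕ => ¬ (p : ℤ) ∣ N) := ⟨_, rfl⟩
  have hPp : ∀ p ∈ P, p.Prime := fun p hp => by
    rw [hP, hP0] at hp
    exact (mem_filter.1 (mem_filter.1 hp).1).2
  have hPN : ∀ p ∈ P, ¬ (p : ℤ) ∣ N := fun p hp => by
    rw [hP] at hp
    exact (mem_filter.1 hp).2
  have hPQ : ∀ p ∈ P, p ≤ Q := fun p hp => by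
    rw [hP, hP0] at hp
    exact (mem_Icc.1 (mem_filter.1 (mem_filter.1 hp).1).1).2
  have hsum : Real.log Q - C1 - (C + C2 * Real.log ((g : ℝ) ^ 2) ^ 2) ≤ ∑ p ∈ P, Real.log p / p := by
    have h3 := h1 Q hQ1
    rw [← hP0] at h3
    have h4 := h2 ((g : ℝ) ^ 2) (by nlinarith) N hN0 (P0.filter (fun p : ℕ => (p : ℤ) ∣ N)) (fun p hp => by
      rw [hP0] at hp
      exact ⟨(mem_filter.1 (mem_filter.1 hp).1).2, (mem_filter.1 hp).2⟩)
    have h5 : Real.log |(N : ℝ)| / (g : ℝ) ^ 2 ≤ C := by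
      rw [div_le_iff₀ (by positivity), hN]
      exact hlog
    have h6 := sum_filter_add_sum_filter_not P0 (fun p : ℕ => (p : ℤ) ∣ N) (fun p : ℕ => Real.log p / p)
    rw [← hP] at h6
    linarith
  have hsum2 : 7 / 10 * L ≤ ∑ p ∈ P, Real.log p / (((p : ℝ) + 4) / 2) - Real.log M := by
    have h3 := hK P hPp
    have h4 : Real.log ((g : ℝ) ^ 2) ^ 2 = 4 * Real.log g ^ 2 := by
      rw [Real.log_pow]
      push_cast
      ring
    rw [h4] at hsum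
    have h5 : C1 ≤ |C1| := le_abs_self _
    have h6 : C ≤ |C| := le_abs_self _
    have h7 : C2 * (4 * Real.log g ^ 2) ≤ |C2| * (4 * Real.log g ^ 2) := mul_le_mul_of_nonneg_right (le_abs_self _) (by positivity)
    rw [← hL]
    rw [hE] at hthr
    linarith
  -- the residues
  have hres : ∀ p ∈ P, ((A.image (fun x : ℤ => (x : ZMod p))).card : ℝ) ≤ ((p : ℝ) + 4) / 2 := by
    intro p hp
    have hpp := hPp p hp
    have hnd := hPN p hp
    have : Fact p.Prime := ⟨hpp⟩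
    have hz : ∀ t : ℤ, ¬ (p : ℤ) ∣ t → ((t : ℤ) : ZMod p) ≠ 0 := fun t ht h => ht ((ZMod.intCast_zmod_eq_zero_iff_dvd t p).1 h)
    have hd1 : ¬ (p : ℤ) ∣ s := fun h => hnd (by rw [hN]; exact Dvd.dvd.mul_right (Dvd.dvd.mul_left h 2) D)
    have hd2 : ¬ (p : ℤ) ∣ D := fun h => hnd (by rw [hN]; exact Dvd.dvd.mul_left h _)
    have hp2 : p ≠ 2 := by
      rintro rfl
      exact hnd (by rw [hN, mul_assoc]; exact Dvd.intro _ rfl)
    have h3 := con p hpp hp2 (s : ZMod p) (D : ZMod p) (hz s hd1) (hz D hd2) (A.image (fun x : ℤ => (x : ZMod p))) (fun x hx => by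
      obtain ⟨t, ht, rfl⟩ := mem_image.1 hx
      obtain ⟨y, hy⟩ := hAc t ht
      refine ⟨(y : ZMod p), ?_⟩
      have h4 := congrArg (fun z : ℤ => (z : ZMod p)) hy
      push_cast at h4
      exact h4)
    have h4 : ((2 * (A.image (fun x : ℤ => (x : ZMod p))).card : ℕ) : ℝ) ≤ ((p + 4 : ℕ) : ℝ) := by exact_mod_cast h3
    push_cast at h4
    linarith
  -- the sieve
  have hdiff : ∀ x ∈ A, ∀ x' ∈ A, |((x - x' : ℤ) : ℝ)| ≤ M := by
    intro x hx x' hx'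
    have h3 := mem_Ico.1 (hA hx)
    have h4 := mem_Ico.1 (hA hx')
    have h5 : |x - x'| ≤ (M : ℤ) := by
      rw [abs_le]
      constructor <;> omega
    exact_mod_cast h5
  have hsv := larger_sieve hAn hM1 hdiff P hPp (u := fun p => ((p : ℝ) + 4) / 2) (fun p _ => by positivity) hres
  have htop : ∑ p ∈ P, Real.log p ≤ X * (9 / 10 * L) := by
    have h3 : ∑ p ∈ P, Real.log p ≤ ∑ p ∈ P, Real.log Q := sum_le_sum fun p hp =>
      Real.log_le_log (by exact_mod_cast (hPp p hp).pos) (by exact_mod_cast hPQ p hp)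
    rw [sum_const, nsmul_eq_mul] at h3
    have h4 : P.card ≤ Q := by
      have h5 : P ⊆ Finset.Icc 1 Q := by
        rw [hP, hP0]
        exact (filter_subset _ _).trans (filter_subset _ _)
      have h6 := card_le_card h5
      rw [Nat.card_Icc] at h6
      omega
    have h5 : (P.card : ℝ) ≤ X := le_trans (by exact_mod_cast h4) hQX
    refine h3.trans (mul_le_mul h5 hlogQ' (Real.log_natCast_nonneg Q) (by linarith))
  have hfin : (A.card : ℝ) * (7 / 10 * L) ≤ X * (9 / 10 * L) := by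
    have h3 : (A.card : ℝ) * (7 / 10 * L) ≤ (A.card : ℝ) * (∑ p ∈ P, Real.log p / (((p : ℝ) + 4) / 2) - Real.log M) :=
      mul_le_mul_of_nonneg_left hsum2 (Nat.cast_nonneg _)
    have h4 : 0 ≤ Real.log (M : ℝ) := by rw [← hL]; exact hL0.le
    linarith
  have hfin2 : (A.card : ℝ) * (7 / 10) ≤ X * (9 / 10) := by
    have h3 : ((A.card : ℝ) * (7 / 10)) * L ≤ (X * (9 / 10)) * L := by linarith
    exact le_of_mul_le_mul_right h3 hL0
  rw [← hX]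
  linarith

end Pool.Agent.Helper2.AAE
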