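import Mathlib

/-!
# Gallagher's larger sieve
-/

set_option autoImplicit false

namespace Pool.Agent.Helper2.AAE

open Finset

/-- the pairs of equal residue -/
theorem pairs_ge {α β : Type*} [DecidableEq α] [DecidableEq β] (S : Finset α) (f : α → β) {u : ℝ} (hu : 0 < u)
    (h : ((S.image f).card : ℝ) ≤ u) : (S.card : ℝ) ^ 2 / u ≤ ((S ×ˢ S).filter (fun x => f x.1 = f x.2)).card := by
  have e1 : ((S ×ˢ S).filter (fun x => f x.1 = f x.2)).card = ∑ b ∈ S.image f, (S.filter (fun a => f a = b)).card ^ 2 := by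
    rw [card_eq_sum_card_fiberwise (f := fun x => f x.1) (t := S.image f)]
    · refine sum_congr rfl fun b _ => ?_
      rw [pow_two, ← card_product]
      congr 1
      ext ⟨x, y⟩
      simp only [mem_filter, mem_product]
      constructor
      · rintro ⟨⟨⟨h1, h2⟩, h3⟩, h4⟩
        exact ⟨⟨h1, h4⟩, h2, by rw [← h3]; exact h4⟩
      · rintro ⟨⟨h1, h2⟩, h3, h4⟩
        exact ⟨⟨⟨h1, h3⟩, by rw [h2, h4]⟩, h2⟩
    · intro x hx
      have h1 := (mem_filter.1 (mem_coe.1 hx)).1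
      exact mem_coe.2 (mem_image_of_mem f (mem_product.1 h1).1)
  have e2 : S.card = ∑ b ∈ S.image f, (S.filter (fun a => f a = b)).card :=
    card_eq_sum_card_fiberwise fun x hx => mem_coe.2 (mem_image_of_mem f (mem_coe.1 hx))
  have e3 : ((∑ b ∈ S.image f, ((S.filter (fun a => f a = b)).card : ℝ)) ^ 2) ≤
      (S.image f).card * ∑ b ∈ S.image f, ((S.filter (fun a => f a = b)).card : ℝ) ^ 2 :=
    sq_sum_le_card_mul_sum_sq
  have e4 : (S.card : ℝ) = ∑ b ∈ S.image f, ((S.filter (fun a => f a = b)).card : ℝ) := by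
    exact_mod_cast e2
  have e5 : (((S ×ˢ S).filter (fun x => f x.1 = f x.2)).card : ℝ) = ∑ b ∈ S.image f, ((S.filter (fun a => f a = b)).card : ℝ) ^ 2 := by
    rw [e1]
    push_cast
    rfl
  rw [← e4, ← e5] at e3
  rw [div_le_iff₀ hu]
  have h0 : (0 : ℝ) ≤ ((S ×ˢ S).filter (fun x => f x.1 = f x.2)).card := Nat.cast_nonneg _
  calc (S.card : ℝ) ^ 2 ≤ (S.image f).card * ((S ×ˢ S).filter (fun x => f x.1 = f x.2)).card := e3
    _ ≤ u * ((S ×ˢ S).filter (fun x => f x.1 = f x.2)).card := mul_le_mul_of_nonneg_right h h0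
    _ = _ := mul_comm _ _

/-- distinct primes dividing a nonzero integer -/
theorem sum_log_le {d : ℤ} (hd : d ≠ 0) (Pr : Finset ℕ) (hP : ∀ p ∈ Pr, p.Prime) :
    ∑ p ∈ Pr.filter (fun p : ℕ => (p : ℤ) ∣ d), Real.log p ≤ Real.log |(d : ℝ)| := by
  have h1 : (∏ p ∈ Pr.filter (fun p : ℕ => (p : ℤ) ∣ d), p) ∣ d.natAbs := by
    refine prod_primes_dvd _ (fun p hp => (hP p (mem_filter.1 hp).1).prime) fun p hp => ?_
    exact Int.natCast_dvd.1 (mem_filter.1 hp).2
  have h2 : (∏ p ∈ Pr.filter (fun p : ℕ => (p : ℤ) ∣ d), p) ≤ d.natAbs :=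
    Nat.le_of_dvd (Int.natAbs_pos.2 hd) h1
  have h3 : (0 : ℝ) < ∏ p ∈ Pr.filter (fun p : ℕ => (p : ℤ) ∣ d), (p : ℝ) :=
    prod_pos fun p hp => by exact_mod_cast (hP p (mem_filter.1 hp).1).pos
  rw [← Real.log_prod (fun p hp => by
    have := (hP p (mem_filter.1 hp).1).pos
    positivity)]
  refine Real.log_le_log h3 ?_
  have h4 : ((d.natAbs : ℕ) : ℝ) = |(d : ℝ)| := by
    rw [Nat.cast_natAbs]
    push_cast
    rfl
  rw [← h4]
  have h5 : ((∏ p ∈ Pr.filter (fun p : ℕ => (p : ℤ) ∣ d), p : ℕ) : ℝ) ≤ (d.natAbs : ℝ) := Nat.cast_le.2 h2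
  rw [Nat.cast_prod] at h5
  exact h5

/-- **Gallagher's larger sieve.** -/
theorem larger_sieve {S : Finset ℤ} (hS : S.Nonempty) {N : ℝ} (hN : 1 ≤ N) (h : ∀ s ∈ S, ∀ s' ∈ S, |((s - s' : ℤ) : ℝ)| ≤ N)
    (Pr : Finset ℕ) (hP : ∀ p ∈ Pr, p.Prime) {u : ℕ → ℝ} (hu0 : ∀ p ∈ Pr, 0 < u p)
    (hu : ∀ p ∈ Pr, ((S.image (fun s : ℤ => (s : ZMod p))).card : ℝ) ≤ u p) :
    (S.card : ℝ) * (∑ p ∈ Pr, Real.log p / u p - Real.log N) ≤ ∑ p ∈ Pr, Real.log p - Real.log N := by
  have hn : (0 : ℝ) < S.card := by exact_mod_cast card_pos.2 hS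
  have hlogN : 0 ≤ Real.log N := Real.log_nonneg hN
  -- the off diagonal pairs
  have key : ∑ p ∈ Pr, Real.log p * (((S ×ˢ S).filter (fun x => (x.1 : ZMod p) = (x.2 : ZMod p))).card : ℝ) ≤
      (S.card : ℝ) * ∑ p ∈ Pr, Real.log p + ((S.card : ℝ) ^ 2 - S.card) * Real.log N := by
    have e1 : ∀ p ∈ Pr, Real.log p * (((S ×ˢ S).filter (fun x => (x.1 : ZMod p) = (x.2 : ZMod p))).card : ℝ) =
        ∑ x ∈ S ×ˢ S, if (p : ℤ) ∣ x.1 - x.2 then Real.log p else 0 := by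
      intro p _
      rw [← sum_filter, sum_const, nsmul_eq_mul, mul_comm]
      congr 3
      ext x
      simp only [mem_filter]
      refine and_congr_right fun _ => ?_
      rw [eq_comm, ZMod.intCast_eq_intCast_iff_dvd_sub]
    rw [sum_congr rfl e1, sum_comm]
    have e2 : ∀ x ∈ S ×ˢ S, ∑ p ∈ Pr, (if (p : ℤ) ∣ x.1 - x.2 then Real.log p else 0) ≤
        if x.1 = x.2 then ∑ p ∈ Pr, Real.log p else Real.log N := by
      intro x hx
      have hx' := mem_product.1 hx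
      split_ifs with h1
      · refine sum_le_sum fun p hp => ?_
        split_ifs
        · exact le_refl _
        · exact Real.log_natCast_nonneg p
      · rw [← sum_filter]
        have h2 : x.1 - x.2 ≠ 0 := sub_ne_zero.2 h1
        refine (sum_log_le h2 Pr hP).trans (Real.log_le_log ?_ (h _ hx'.1 _ hx'.2))
        rw [abs_pos]
        exact_mod_cast h2
    refine (sum_le_sum e2).trans (le_of_eq ?_)
    rw [← sum_filter_add_sum_filter_not (S ×ˢ S) (fun x => x.1 = x.2)]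
    have d1 : ((S ×ˢ S).filter (fun x => x.1 = x.2)).card = S.card := by
      have : (S ×ˢ S).filter (fun x => x.1 = x.2) = S.diag := by
        ext x
        simp only [mem_filter, mem_product, mem_diag]
        constructor
        · rintro ⟨⟨h1, -⟩, h2⟩
          exact ⟨h1, h2⟩
        · rintro ⟨h1, h2⟩
          exact ⟨⟨h1, h2 ▸ h1⟩, h2⟩
      rw [this, diag_card]
    have d2 : (((S ×ˢ S).filter (fun x => ¬ x.1 = x.2)).card : ℝ) = (S.card : ℝ) ^ 2 - S.card := by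
      have h3 := card_filter_add_card_filter_not (s := S ×ˢ S) (fun x => x.1 = x.2)
      rw [d1, card_product] at h3
      have h4 : ((S.card + ((S ×ˢ S).filter (fun x => ¬ x.1 = x.2)).card : ℕ) : ℝ) = ((S.card * S.card : ℕ) : ℝ) := by
        exact_mod_cast h3
      push_cast at h4
      linarith
    have e3 : ∑ x ∈ (S ×ˢ S).filter (fun x => x.1 = x.2), (if x.1 = x.2 then ∑ p ∈ Pr, Real.log p else Real.log N) =
        S.card * ∑ p ∈ Pr, Real.log p := by
      rw [sum_congr rfl (fun x hx => if_pos (mem_filter.1 hx).2), sum_const, d1, nsmul_eq_mul]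
    have e4 : ∑ x ∈ (S ×ˢ S).filter (fun x => ¬ x.1 = x.2), (if x.1 = x.2 then ∑ p ∈ Pr, Real.log p else Real.log N) =
        ((S.card : ℝ) ^ 2 - S.card) * Real.log N := by
      rw [sum_congr rfl (fun x hx => if_neg (mem_filter.1 hx).2), sum_const, nsmul_eq_mul, d2]
    rw [e3, e4]
  have low : ∑ p ∈ Pr, Real.log p * ((S.card : ℝ) ^ 2 / u p) ≤
      ∑ p ∈ Pr, Real.log p * (((S ×ˢ S).filter (fun x => (x.1 : ZMod p) = (x.2 : ZMod p))).card : ℝ) :=
    sum_le_sum fun p hp => mul_le_mul_of_nonneg_left (pairs_ge S (fun s : ℤ => (s : ZMod p)) (hu0 p hp) (hu p hp)) (Real.log_natCast_nonneg p)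
  have e5 : ∑ p ∈ Pr, Real.log p * ((S.card : ℝ) ^ 2 / u p) = (S.card : ℝ) ^ 2 * ∑ p ∈ Pr, Real.log p / u p := by
    rw [mul_sum]
    refine sum_congr rfl fun p _ => ?_
    ring
  rw [e5] at low
  have h5 : (S.card : ℝ) * ((S.card : ℝ) * (∑ p ∈ Pr, Real.log p / u p - Real.log N)) ≤
      (S.card : ℝ) * (∑ p ∈ Pr, Real.log p - Real.log N) := by
    nlinarith [low.trans key]
  exact le_of_mul_le_mul_left h5 hn

end Pool.Agent.Helper2.AAE
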